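import Pool.Agent.H1.LP.Targets

/-!
Module HIGH: the high part is small.
-/

set_option autoImplicit false

namespace Pool.Agent.H58.LP

open Finset Pool.Agent.H1.LP

lemma norm_chi {p : ℕ} [NeZero p] (a : ZMod p) : ‖(ZMod.stdAddChar a : ℂ)‖ = 1 := by
  rw [ZMod.stdAddChar_apply]
  exact Circle.norm_coe _

theorem high (h : S_PHASE) : S_HIGH := by
  intro p B d _ Q _ _ S g s0 I w V al hV hw hT
  have hS0 : 0 ≤ ∑ x, V x := Finset.sum_nonneg fun x _ => hV x
  have key : ∀ l ∈ S.La.filter (fun l => ¬ (supp l \ I).card ≤ s0),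
      ‖ZMod.stdAddChar (- S.ga l) * FS V l al‖ ≤ 2 * (∑ x, V x) / 2 ^ (g * (s0 + 1)) := by
    intro l hl
    rw [Finset.mem_filter] at hl
    have hcard : s0 + 1 ≤ (supp l \ I).card := by
      have := hl.2
      omega
    set l' : Fin B → ZMod p := fun j => if j ∈ I then 0 else l j with hl'
    set l'' : Fin B → ZMod p := fun j => if j ∈ I then l j else 0 with hl''
    have e1 : l = l' + l'' := by
      funext j
      by_cases hj : j ∈ I
      · simp [hl', hl'', hj]
      · simp [hl', hl'', hj]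
    have e2 : supp l'' ⊆ I := by
      intro j hj
      by_contra hjI
      simp [supp, hl'', hjI] at hj
    have e3 : supp l' = supp l \ I := by
      ext j
      by_cases hj : j ∈ I
      · simp [supp, hl', hj]
      · simp [supp, hl', hj]
    have e4 : ∀ j ∈ I, l' j = 0 := by
      intro j hj
      simp [hl', hj]
    have e5 : l' ≠ 0 := by
      intro h0
      rw [← e3, h0] at hcard
      simp [supp] at hcard
    have e6 : ‖FS V l al‖ = ‖FS V l' al‖ := by
      conv_lhs => rw [e1]
      rw [h p B Q I w V al l' l'' hw e2, norm_mul, norm_chi, one_mul]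
    have e7 := hT l' e5 e4
    rw [norm_mul, norm_chi, one_mul, e6]
    rw [le_div_iff₀ (by positivity)]
    refine le_trans ?_ e7
    apply mul_le_mul_of_nonneg_left _ (norm_nonneg _)
    apply pow_le_pow_right₀ (by norm_num)
    rw [e3]
    exact Nat.mul_le_mul_left g hcard
  refine (norm_sum_le _ _).trans ((Finset.sum_le_card_nsmul _ _ _ key).trans ?_)
  have e8 : ((S.La.filter (fun l => ¬ (supp l \ I).card ≤ s0)).card : ℝ) ≤ (p : ℝ) ^ B := by
    have h1 : (S.La.filter (fun l => ¬ (supp l \ I).card ≤ s0)).card ≤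
        Fintype.card (Fin B → ZMod p) := Finset.card_le_univ _
    rw [Fintype.card_fun, Fintype.card_fin, ZMod.card] at h1
    exact_mod_cast h1
  rw [nsmul_eq_mul]
  calc ((S.La.filter (fun l => ¬ (supp l \ I).card ≤ s0)).card : ℝ) *
        (2 * (∑ x, V x) / 2 ^ (g * (s0 + 1)))
      ≤ (p : ℝ) ^ B * (2 * (∑ x, V x) / 2 ^ (g * (s0 + 1))) :=
        mul_le_mul_of_nonneg_right e8 (by positivity)
    _ = 2 * (p : ℝ) ^ B / 2 ^ (g * (s0 + 1)) * ∑ x, V x := by ring

end Pool.Agent.H58.LP
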