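import Pool.Agent.H1.LP.Targets

/-!
Module MAIN: main inequality for one dense piece.
-/

set_option autoImplicit false

namespace Pool.Agent.H58.LP

open Finset Pool.Agent.H1.LP

/-- the correlation of the pseudo-density with `V` as a sum over the forms -/
lemma pd_sum {p B d : ℕ} [NeZero p] {Q : Type} [Fintype Q] [DecidableEq Q] (S : Loc p B d)
    (al : Fin B → Q → ZMod p) (V : (Fin B → Q) → ℝ) :
    ∑ x, PD S al x * V x = (∑ l ∈ S.La, ZMod.stdAddChar (- S.ga l) * FS V l al).re := by
  unfold PD FS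
  rw [Complex.re_sum]
  simp_rw [Finset.sum_mul, Finset.mul_sum, Complex.re_sum]
  rw [Finset.sum_comm]
  refine Finset.sum_congr rfl fun l _ => Finset.sum_congr rfl fun x _ => ?_
  have e1 : (ZMod.stdAddChar (ip l (val al x) - S.ga l) : ℂ) =
      ZMod.stdAddChar (- S.ga l) * ZMod.stdAddChar (ip l (val al x)) := by
    rw [sub_eq_add_neg, AddChar.map_add_eq_mul, mul_comm]
  have e2 : (ZMod.stdAddChar (- S.ga l) : ℂ) * ((V x : ℂ) * ZMod.stdAddChar (ip l (val al x))) =
      (V x : ℂ) * ZMod.stdAddChar (ip l (val al x) - S.ga l) := by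
    rw [e1]
    ring
  rw [e2, Complex.re_ofReal_mul, mul_comm]

theorem main (h1 : S_LOWZ) (h2 : S_LOWP) (h3 : S_HIGH) : S_MAIN := by
  intro p B d _ Q _ _ S g s0 I w V al hV hw hd hT hg
  have hh := h3 p B d Q S g s0 I w V al hV hw hT
  have hs : ∑ l ∈ S.La, ZMod.stdAddChar (- S.ga l) * FS V l al =
      ∑ l ∈ S.La.filter (fun l => (supp l \ I).card ≤ s0),
        ZMod.stdAddChar (- S.ga l) * FS V l al +
      ∑ l ∈ S.La.filter (fun l => ¬ (supp l \ I).card ≤ s0),
        ZMod.stdAddChar (- S.ga l) * FS V l al :=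
    (Finset.sum_filter_add_sum_filter_not _ _ _).symm
  rw [pd_sum, hs, Complex.add_re]
  have hre := (Complex.abs_re_le_norm (∑ l ∈ S.La.filter (fun l => ¬ (supp l \ I).card ≤ s0),
    ZMod.stdAddChar (- S.ga l) * FS V l al)).trans hh
  constructor
  · intro hv
    rw [h1 p B d Q S s0 I w V al hw hd hv, Complex.zero_re, zero_add]
    exact hre
  · intro hv
    have e1 := h2 p B d Q S g s0 I w V al hV hw hd hT hg hv
    have e2 := (abs_le.1 hre).1
    rw [sub_mul]
    linarith

end Pool.Agent.H58.LP
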