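import Pool.Agent.H1.LP.Targets

/-!
Module PAR: choice of the parameters.
-/

set_option autoImplicit false

namespace Pool.Agent.H58.LP

open Finset Filter Pool.Agent.H1.LP

/-- logarithmic terms are eventually small -/
lemma ev_log (C a δ : ℝ) (hC : 0 ≤ C) (hδ : 0 < δ) :
    ∀ᶠ n : ℕ in atTop, a + C * ((Nat.log 2 n : ℝ) + 1) ≤ δ * n := by
  have hl2 : 0 < Real.log 2 := Real.log_pos (by norm_num)
  have hδ' : 0 < δ * Real.log 2 / (2 * (C + 1)) := by positivity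
  have h1 : ∀ᶠ n : ℕ in atTop, ‖Real.log (n : ℝ)‖ ≤
      δ * Real.log 2 / (2 * (C + 1)) * ‖(n : ℝ)‖ :=
    tendsto_natCast_atTop_atTop.eventually (Real.isLittleO_log_id_atTop.def hδ')
  have h2 : ∀ᶠ n : ℕ in atTop, (a + C) * 2 / δ ≤ (n : ℝ) :=
    tendsto_natCast_atTop_atTop.eventually (eventually_ge_atTop _)
  filter_upwards [h1, h2, eventually_ge_atTop 1] with n hn1 hn2 hn3
  have hn : (0 : ℝ) ≤ n := Nat.cast_nonneg n
  have hn0 : (1 : ℝ) ≤ n := by exact_mod_cast hn3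
  rw [Real.norm_eq_abs, Real.norm_eq_abs, abs_of_nonneg (Real.log_nonneg hn0), abs_of_nonneg hn]
    at hn1
  have h3 : (Nat.log 2 n : ℝ) ≤ Real.logb 2 n := by
    have := Real.natLog_le_logb n 2
    simpa using this
  have h4 : C * (Nat.log 2 n : ℝ) ≤ δ / 2 * n := by
    have h5 : Real.logb 2 n ≤ δ / (2 * (C + 1)) * n := by
      rw [Real.logb, div_le_iff₀ hl2]
      calc Real.log n ≤ δ * Real.log 2 / (2 * (C + 1)) * n := hn1
        _ = δ / (2 * (C + 1)) * n * Real.log 2 := by ring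
    calc C * (Nat.log 2 n : ℝ) ≤ C * (δ / (2 * (C + 1)) * n) :=
          mul_le_mul_of_nonneg_left (h3.trans h5) hC
      _ = C / (C + 1) * (δ / 2 * n) := by field_simp
      _ ≤ 1 * (δ / 2 * n) := by
          apply mul_le_mul_of_nonneg_right _ (by positivity)
          rw [div_le_one (by linarith)]
          linarith
      _ = δ / 2 * n := one_mul _
  have h6 : a + C ≤ δ / 2 * n := by
    rw [div_le_iff₀ hδ] at hn2
    linarith
  have h7 : a + C * ((Nat.log 2 n : ℝ) + 1) = (a + C) + C * (Nat.log 2 n : ℝ) := by ring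
  rw [h7]
  linarith

lemma eta_eq (E g B : ℕ) : eta E g B =
    (2 : ℝ) ^ ((1 : ℝ) + (4 * (E : ℝ) + 1) * B - g * (((B / E : ℕ) : ℝ) + 1)) := by
  have e1 : (2 : ℝ) ^ ((4 * (E : ℝ) + 1) * B) = 2 ^ ((4 * E + 1) * B) := by
    rw [← Real.rpow_natCast]
    push_cast
    rfl
  have e2 : (2 : ℝ) ^ ((g : ℝ) * (((B / E : ℕ) : ℝ) + 1)) = 2 ^ (g * (B / E + 1)) := by
    rw [← Real.rpow_natCast, Nat.cast_mul, Nat.cast_add, Nat.cast_one]
  rw [Real.rpow_sub two_pos, Real.rpow_add two_pos, Real.rpow_one, e1, e2]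
  rfl

lemma vsi_eq (E g B : ℕ) : vsi E g B =
    (2 : ℝ) ^ ((4 * (E : ℝ) + 1) * B +
      (4 * (g : ℝ) - 4 * E * g) * ((B - 9 * (B / E) + 1 : ℕ) : ℝ)) := by
  have e1 : (2 : ℝ) ^ ((4 * (E : ℝ) + 1) * B) = 2 ^ ((4 * E + 1) * B) := by
    rw [← Real.rpow_natCast]
    push_cast
    rfl
  have e2 : (2 : ℝ) ^ (4 * (g : ℝ) - 4 * E * g) = 2 ^ (4 * g) / 2 ^ (4 * E * g) := by
    rw [Real.rpow_sub two_pos, ← Real.rpow_natCast, ← Real.rpow_natCast]
    push_cast
    rfl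
  have e3 : (2 : ℝ) ^ ((4 * (g : ℝ) - 4 * E * g) * ((B - 9 * (B / E) + 1 : ℕ) : ℝ)) =
      (2 ^ (4 * g) / 2 ^ (4 * E * g)) ^ (B - 9 * (B / E) + 1) := by
    rw [Real.rpow_mul two_pos.le, e2, Real.rpow_natCast]
  rw [Real.rpow_add two_pos, e1, e3]
  rfl

/-- exponent of `eta` -/
lemma exp_eta (N b G Er t : ℝ) (hE : 1 ≤ Er) (hb : 0 ≤ b) (hG : 2 * Er * (4 * Er + 1) ≤ G)
    (hb2 : N ≤ (b + 1) * (4 * Er * G)) (ht : b ≤ Er * (t + 1)) :
    1 + (4 * Er + 1) * b - G * (t + 1) ≤ 1 + G - N / (8 * Er ^ 2) := by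
  have hE0 : 0 < Er := by linarith
  have hG0 : 0 ≤ G := le_trans (by positivity) hG
  have h1 : G * b / Er ≤ G * (t + 1) := by
    rw [div_le_iff₀ hE0]
    calc G * b ≤ G * (Er * (t + 1)) := mul_le_mul_of_nonneg_left ht hG0
      _ = G * (t + 1) * Er := by ring
  have h2 : (4 * Er + 1) * b ≤ G * b / (2 * Er) := by
    rw [le_div_iff₀ (by positivity)]
    calc (4 * Er + 1) * b * (2 * Er) = (2 * Er * (4 * Er + 1)) * b := by ring
      _ ≤ G * b := mul_le_mul_of_nonneg_right hG hb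
  have h3 : N / (8 * Er ^ 2) ≤ (b + 1) * G / (2 * Er) := by
    rw [div_le_div_iff₀ (by positivity) (by positivity)]
    calc N * (2 * Er) ≤ ((b + 1) * (4 * Er * G)) * (2 * Er) :=
          mul_le_mul_of_nonneg_right hb2 (by positivity)
      _ = (b + 1) * G * (8 * Er ^ 2) := by ring
  have h4 : G * b / Er = G * b / (2 * Er) + G * b / (2 * Er) := by
    field_simp
    ring
  have h5 : (b + 1) * G / (2 * Er) = G * b / (2 * Er) + G / (2 * Er) := by
    field_simp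
  have h6 : G / (2 * Er) ≤ G := by
    rw [div_le_iff₀ (by positivity)]
    have : G * 1 ≤ G * (2 * Er) := mul_le_mul_of_nonneg_left (by linarith) hG0
    linarith
  linarith

/-- exponent of `vsi` -/
lemma exp_vsi (N b G Er t : ℝ) (hE : 16 ≤ Er) (hb : 0 ≤ b) (hG : 0 < G) (hN : 0 ≤ N)
    (hb1 : b * (4 * Er * G) ≤ N) (hb2 : N ≤ (b + 1) * (4 * Er * G)) (ht : Er * t ≤ b) :
    (4 * Er + 1) * b + (4 * G - 4 * Er * G) * (b - 9 * t + 1) ≤
      2 * N / G - (1 - 10 / Er) * N := by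
  have hE0 : 0 < Er := by linarith
  have h1 : (4 * Er + 1) * b ≤ 2 * N / G := by
    rw [le_div_iff₀ hG]
    have e1 : b * G ≤ N / (4 * Er) := by
      rw [le_div_iff₀ (by positivity)]
      calc b * G * (4 * Er) = b * (4 * Er * G) := by ring
        _ ≤ N := hb1
    calc (4 * Er + 1) * b * G = (4 * Er + 1) * (b * G) := by ring
      _ ≤ (4 * Er + 1) * (N / (4 * Er)) := mul_le_mul_of_nonneg_left e1 (by positivity)
      _ = (4 * Er + 1) / (4 * Er) * N := by ring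
      _ ≤ 2 * N := by
          apply mul_le_mul_of_nonneg_right _ hN
          rw [div_le_iff₀ (by positivity)]
          linarith
  have h2 : (1 - 9 / Er) * (b + 1) ≤ b - 9 * t + 1 := by
    have e1 : t ≤ b / Er := by
      rw [le_div_iff₀ hE0]
      linarith
    have e2 : 0 ≤ 9 / Er := by positivity
    have e3 : (1 - 9 / Er) * (b + 1) = b + 1 - 9 * (b / Er) - 9 / Er := by
      field_simp
      ring
    rw [e3]
    linarith
  have h9 : 9 / Er ≤ 1 := by
    rw [div_le_one hE0]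
    linarith
  have h3 : (1 - 10 / Er) * N ≤ (4 * Er * G - 4 * G) * (b - 9 * t + 1) := by
    have e0 : 0 ≤ 4 * Er * G - 4 * G := by
      have : 4 * Er * G - 4 * G = 4 * G * (Er - 1) := by ring
      rw [this]
      apply mul_nonneg (by positivity)
      linarith
    have e4 : (1 - 1 / Er) * (1 - 9 / Er) * N ≤ (4 * Er * G - 4 * G) * ((1 - 9 / Er) * (b + 1)) := by
      have e5 : (4 * Er * G - 4 * G) * ((1 - 9 / Er) * (b + 1)) =
          (1 - 1 / Er) * (1 - 9 / Er) * ((b + 1) * (4 * Er * G)) := by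
        field_simp
      rw [e5]
      apply mul_le_mul_of_nonneg_left hb2
      apply mul_nonneg
      · have : 1 / Er ≤ 1 := by
          rw [div_le_one hE0]
          linarith
        linarith
      · linarith
    have e6 : (1 - 10 / Er) * N ≤ (1 - 1 / Er) * (1 - 9 / Er) * N := by
      apply mul_le_mul_of_nonneg_right _ hN
      have : (1 - 1 / Er) * (1 - 9 / Er) = 1 - 10 / Er + 9 / Er ^ 2 := by
        field_simp
        ring
      rw [this]
      have : 0 ≤ 9 / Er ^ 2 := by positivity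
      linarith
    exact e6.trans (e4.trans (mul_le_mul_of_nonneg_left h2 e0))
  have h4 : (4 * G - 4 * Er * G) * (b - 9 * t + 1) =
      -((4 * Er * G - 4 * G) * (b - 9 * t + 1)) := by ring
  rw [h4]
  linarith

/-- the last item -/
lemma last_item (E K n g B m lg : ℕ) (ε W : ℝ) (hE : 16 ≤ E) (hε : 0 < ε)
    (hEε : 20 / ε ≤ E) (hg : 1 ≤ g) (hlg : n ≤ 2 ^ lg)
    (hB : B = n / (4 * E * g))
    (c1 : (2 : ℝ) * E * (4 * E + 1) ≤ g)
    (c2 : (5 : ℝ) + K * lg + g ≤ n / (16 * E ^ 2))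
    (c3 : (32 : ℝ) / ε ≤ g)
    (c4 : (5 : ℝ) + K * lg ≤ ε / 16 * n)
    (hm : m ≤ n ^ K) (hm1 : 1 ≤ m)
    (hx : (2 : ℝ) ^ (-(1 / (16 * (E : ℝ) ^ 2) * n)) ≤
      8 * m * eta E g B + 12 * m * vsi E g B * W) :
    (2 : ℝ) ^ ((1 - ε) * n) ≤ W := by
  have hE0 : (16 : ℝ) ≤ E := by exact_mod_cast hE
  have hE1 : (0 : ℝ) < E := by linarith
  have hg0 : (1 : ℝ) ≤ g := by exact_mod_cast hg
  have hd : 0 < 4 * E * g := by positivity
  have hb1 : (B : ℝ) * (4 * E * g) ≤ n := by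
    have : B * (4 * E * g) ≤ n := by
      rw [hB]
      exact Nat.div_mul_le_self n _
    exact_mod_cast this
  have hb2 : (n : ℝ) ≤ ((B : ℝ) + 1) * (4 * E * g) := by
    have : n ≤ (B + 1) * (4 * E * g) := by
      rw [hB, mul_comm]
      exact (Nat.lt_mul_div_succ n hd).le
    exact_mod_cast this
  have ht1 : (B : ℝ) ≤ E * (((B / E : ℕ) : ℝ) + 1) := by
    have : B ≤ E * (B / E + 1) := (Nat.lt_mul_div_succ B (by omega)).le
    exact_mod_cast this
  have ht2 : (E : ℝ) * ((B / E : ℕ) : ℝ) ≤ B := by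
    have : E * (B / E) ≤ B := Nat.mul_div_le B E
    exact_mod_cast this
  have h9 : 9 * (B / E) ≤ B := by
    have h1 : 9 * (B / E) ≤ E * (B / E) := Nat.mul_le_mul_right _ (by omega)
    exact h1.trans (Nat.mul_div_le B E)
  have hcast : ((B - 9 * (B / E) + 1 : ℕ) : ℝ) = (B : ℝ) - 9 * ((B / E : ℕ) : ℝ) + 1 := by
    rw [Nat.cast_add, Nat.cast_sub h9]
    push_cast
    ring
  have hB0 : (0 : ℝ) ≤ B := Nat.cast_nonneg B
  have hn0 : (0 : ℝ) ≤ n := Nat.cast_nonneg n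
  have b1 := exp_eta n B g E ((B / E : ℕ) : ℝ) (by linarith) hB0 c1 hb2 ht1
  have b2 := exp_vsi n B g E ((B / E : ℕ) : ℝ) hE0 hB0 (by linarith) hn0 hb1 hb2 ht2
  have hmr : (m : ℝ) ≤ (2 : ℝ) ^ ((K : ℝ) * lg) := by
    have h1 : m ≤ (2 ^ lg) ^ K := hm.trans (Nat.pow_le_pow_left hlg K)
    have h2 : ((2 : ℝ) ^ ((K : ℝ) * lg)) = ((2 ^ lg) ^ K : ℕ) := by
      rw [← pow_mul, mul_comm lg K, ← Nat.cast_mul, Real.rpow_natCast]
      push_cast
      rfl
    rw [h2]
    exact_mod_cast h1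
  have hm0 : (0 : ℝ) < m := by exact_mod_cast hm1
  have heta : eta E g B ≤ (2 : ℝ) ^ (1 + (g : ℝ) - n / (8 * (E : ℝ) ^ 2)) := by
    rw [eta_eq]
    exact Real.rpow_le_rpow_of_exponent_le (by norm_num) b1
  have heta0 : 0 ≤ eta E g B := by
    rw [eta_eq]
    positivity
  have hvsi : vsi E g B ≤ (2 : ℝ) ^ (2 * (n : ℝ) / g - (1 - 10 / (E : ℝ)) * n) := by
    rw [vsi_eq, hcast]
    exact Real.rpow_le_rpow_of_exponent_le (by norm_num) b2
  have hvsi0 : 0 < vsi E g B := by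
    rw [vsi_eq]
    positivity
  -- first term
  have f1 : 8 * m * eta E g B ≤ 1 / 2 * (2 : ℝ) ^ (-(1 / (16 * (E : ℝ) ^ 2) * n)) := by
    have e1 : (2 : ℝ) ^ (4 : ℝ) * ((2 : ℝ) ^ ((K : ℝ) * lg) *
        (2 : ℝ) ^ (1 + (g : ℝ) - n / (8 * (E : ℝ) ^ 2))) ≤
        (2 : ℝ) ^ (-(1 / (16 * (E : ℝ) ^ 2) * n)) := by
      rw [← Real.rpow_add two_pos, ← Real.rpow_add two_pos]
      apply Real.rpow_le_rpow_of_exponent_le (by norm_num)
      have e2 : (n : ℝ) / (8 * (E : ℝ) ^ 2) = 1 / (16 * (E : ℝ) ^ 2) * n + n / (16 * (E : ℝ) ^ 2) := by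
        field_simp
        ring
      rw [e2]
      linarith
    have e3 : (2 : ℝ) ^ (4 : ℝ) = 16 := by
      rw [show (4 : ℝ) = ((4 : ℕ) : ℝ) by norm_num, Real.rpow_natCast]
      norm_num
    rw [e3] at e1
    have e4 : (m : ℝ) * eta E g B ≤ (2 : ℝ) ^ ((K : ℝ) * lg) *
        (2 : ℝ) ^ (1 + (g : ℝ) - n / (8 * (E : ℝ) ^ 2)) :=
      mul_le_mul hmr heta heta0 (by positivity)
    calc 8 * m * eta E g B = 1 / 2 * (16 * (m * eta E g B)) := by ring
      _ ≤ 1 / 2 * (2 : ℝ) ^ (-(1 / (16 * (E : ℝ) ^ 2) * n)) := by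
          apply mul_le_mul_of_nonneg_left _ (by norm_num)
          exact (mul_le_mul_of_nonneg_left e4 (by norm_num)).trans e1
  have f2 : (2 : ℝ) ^ (-(1 / (16 * (E : ℝ) ^ 2) * n)) ≤ (24 * (m * vsi E g B)) * W := by
    have : 12 * m * vsi E g B * W = 1 / 2 * ((24 * (m * vsi E g B)) * W) := by ring
    linarith
  -- second term
  have f3 : (24 * (m * vsi E g B)) * (2 : ℝ) ^ ((1 - ε) * n) ≤
      (2 : ℝ) ^ (-(1 / (16 * (E : ℝ) ^ 2) * n)) := by
    have e1 : (m : ℝ) * vsi E g B ≤ (2 : ℝ) ^ ((K : ℝ) * lg) *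
        (2 : ℝ) ^ (2 * (n : ℝ) / g - (1 - 10 / (E : ℝ)) * n) :=
      mul_le_mul hmr hvsi hvsi0.le (by positivity)
    have e2 : (24 : ℝ) ≤ (2 : ℝ) ^ (5 : ℝ) := by
      rw [show (5 : ℝ) = ((5 : ℕ) : ℝ) by norm_num, Real.rpow_natCast]
      norm_num
    have e3 : 24 * ((m : ℝ) * vsi E g B) ≤ (2 : ℝ) ^ (5 : ℝ) * ((2 : ℝ) ^ ((K : ℝ) * lg) *
        (2 : ℝ) ^ (2 * (n : ℝ) / g - (1 - 10 / (E : ℝ)) * n)) :=
      mul_le_mul e2 e1 (by positivity) (by positivity)
    refine (mul_le_mul_of_nonneg_right e3 (by positivity)).trans ?_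
    rw [← Real.rpow_add two_pos, ← Real.rpow_add two_pos, ← Real.rpow_add two_pos]
    apply Real.rpow_le_rpow_of_exponent_le (by norm_num)
    have g1 : 10 / (E : ℝ) ≤ ε / 2 := by
      rw [div_le_div_iff₀ hE1 two_pos]
      rw [div_le_iff₀ hε] at hEε
      linarith
    have g2 : 10 / (E : ℝ) * n ≤ ε / 2 * n := mul_le_mul_of_nonneg_right g1 hn0
    have g3 : 2 * (n : ℝ) / g ≤ ε / 16 * n := by
      rw [div_le_iff₀ (by linarith)]
      rw [div_le_iff₀ hε] at c3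
      have : (2 : ℝ) * n ≤ (g * ε / 16) * n := mul_le_mul_of_nonneg_right (by linarith) hn0
      linarith
    have g4 : 1 / (16 * (E : ℝ) ^ 2) * n ≤ ε / 8 * n := by
      apply mul_le_mul_of_nonneg_right _ hn0
      rw [div_le_iff₀ (by positivity)]
      have g5 : 20 ≤ E * ε := by
        rw [div_le_iff₀ hε] at hEε
        linarith
      have g6 : (1 : ℝ) * 20 ≤ E * (E * ε) := mul_le_mul (by linarith) g5 (by norm_num) hE1.le
      have g7 : ε / 8 * (16 * (E : ℝ) ^ 2) = 2 * (E * (E * ε)) := by ring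
      rw [g7]
      linarith
    have g8 : (1 - 10 / (E : ℝ)) * n = n - 10 / (E : ℝ) * n := by ring
    have g9 : (1 - ε) * n = n - ε * n := by ring
    have g10 : 0 ≤ ε * n := by positivity
    rw [g8, g9]
    linarith
  have f4 : 0 < 24 * (m * vsi E g B) := by positivity
  exact le_of_mul_le_mul_left (f3.trans f2) f4

theorem par : S_PAR := by
  intro c ε hε
  set E : ℕ := max 16 ⌈20 / ε⌉₊ with hEd
  have hE16 : 16 ≤ E := le_max_left _ _
  have hEε : 20 / ε ≤ (E : ℝ) :=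
    (Nat.le_ceil _).trans (by exact_mod_cast le_max_right _ _)
  have hE1 : (16 : ℝ) ≤ E := by exact_mod_cast hE16
  have hE0 : (0 : ℝ) < E := by linarith
  set a1 : ℕ := 4 * E * kk E * (c + 6) with ha1
  set K : ℕ := 2 * a1 + 2 with hK
  have hkk : 1 ≤ kk E := by
    unfold kk
    have : 0 < 2 * (4 * E + 1) * E ^ 2 := by positivity
    omega
  refine ⟨E, K, 1 / (16 * (E : ℝ) ^ 2), hE16, ?_, by positivity, ?_⟩
  · rw [div_le_iff₀ hE0]
    rw [div_le_iff₀ hε] at hEε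
    linarith
  -- eventual facts
  have h1 := ev_log (8 * E * (c + 6) * kk E) 0 1 (by positivity) one_pos
  have h2 := ev_log K 2 1 (by positivity) one_pos
  have h3 := ev_log (K + (c + 6)) 5 (1 / (16 * (E : ℝ) ^ 2)) (by positivity) (by positivity)
  have h4 := ev_log K 5 (ε / 16) (by positivity) (by positivity)
  have h5 : ∀ᶠ n : ℕ in atTop, 2 ^ (2 * E * (4 * E + 1) + ⌈32 / ε⌉₊) ≤ n := eventually_ge_atTop _
  have h6 : ∀ᶠ n : ℕ in atTop, 4 * 2 ^ (4 * E + 1) + 8 ≤ n := eventually_ge_atTop _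
  obtain ⟨n₀, hn₀⟩ := eventually_atTop.1
    ((h1.and (h2.and (h3.and (h4.and (h5.and h6))))))
  refine ⟨n₀, fun n hn => ?_⟩
  obtain ⟨q1, q2, q3, q4, q5, q6⟩ := hn₀ n hn
  have hn8 : 8 ≤ n := by
    have : 0 < 4 * 2 ^ (4 * E + 1) := by positivity
    omega
  have hn0 : n ≠ 0 := by omega
  set lg : ℕ := Nat.log 2 n + 1 with hlgd
  have hlg1 : n < 2 ^ lg := Nat.lt_pow_succ_log_self (by norm_num) n
  have hlg2 : 2 ^ lg ≤ 2 * n := by
    rw [hlgd, pow_succ, mul_comm]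
    exact Nat.mul_le_mul_left 2 (Nat.pow_log_le_self 2 hn0)
  have hlgr : (Nat.log 2 n : ℝ) + 1 = (lg : ℝ) := by
    rw [hlgd]
    push_cast
    rfl
  rw [hlgr] at q1 q2 q3 q4
  have hlg3 : 2 * E * (4 * E + 1) + ⌈32 / ε⌉₊ ≤ lg := by
    have := Nat.le_log_of_pow_le (by norm_num) q5
    omega
  set g : ℕ := (c + 6) * lg with hg
  have hlgg : lg ≤ g := by
    rw [hg]
    exact Nat.le_mul_of_pos_left lg (by omega)
  have hlg0 : 1 ≤ lg := by omega
  have hg2 : 2 ≤ g := by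
    rw [hg]
    have : (c + 6) * 1 ≤ (c + 6) * lg := Nat.mul_le_mul_left _ hlg0
    omega
  set B : ℕ := n / (4 * E * g) with hB
  have hd : 0 < 4 * E * g := by positivity
  have hBn : B * (4 * E * g) ≤ n := Nat.div_mul_le_self n _
  have hBn1 : B ≤ n := Nat.div_le_self _ _
  have hpg : n ^ (c + 6) ≤ 2 ^ g := by
    rw [hg, mul_comm (c + 6) lg, pow_mul]
    exact Nat.pow_le_pow_left hlg1.le _
  have hbig : 4 * E * B * 2 ^ (4 * E * g * kk E) ≤ n ^ (2 * a1 + 1) := by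
    have e1 : 4 * E * B ≤ n := by
      refine le_trans ?_ hBn
      have : 4 * E * B * 1 ≤ 4 * E * B * g := Nat.mul_le_mul_left _ (by omega)
      calc 4 * E * B = 4 * E * B * 1 := (mul_one _).symm
        _ ≤ 4 * E * B * g := this
        _ = B * (4 * E * g) := by ring
    have e2 : 2 ^ (4 * E * g * kk E) ≤ (n ^ 2) ^ a1 := by
      have : 4 * E * g * kk E = lg * a1 := by
        rw [hg, ha1]
        ring
      rw [this, pow_mul]
      apply Nat.pow_le_pow_left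
      refine hlg2.trans ?_
      rw [pow_two]
      exact Nat.mul_le_mul_right n (by omega)
    calc 4 * E * B * 2 ^ (4 * E * g * kk E) ≤ n * (n ^ 2) ^ a1 := Nat.mul_le_mul e1 e2
      _ = n ^ (2 * a1 + 1) := by
          rw [← pow_mul, pow_succ, mul_comm]
  refine ⟨g, n ^ (c + 2), B, by omega, by positivity, ?_, hBn, ?_, ?_, ?_, ?_, ?_, ?_⟩
  · -- 2 kk <= B
    rw [hB, Nat.le_div_iff_mul_le hd]
    have e1 : (8 : ℝ) * E * (c + 6) * kk E * lg ≤ n := by linarith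
    have e2 : 8 * E * (c + 6) * kk E * lg ≤ n := by exact_mod_cast e1
    calc 2 * kk E * (4 * E * g) = 8 * E * (c + 6) * kk E * lg := by
          rw [hg]
          ring
      _ ≤ n := e2
  · -- 4 2^(4E+1) B <= 2^g
    refine le_trans ?_ hpg
    calc 4 * 2 ^ (4 * E + 1) * B ≤ n * n := Nat.mul_le_mul (by omega) hBn1
      _ = n ^ 2 := (pow_two n).symm
      _ ≤ n ^ (c + 6) := Nat.pow_le_pow_right (by omega) (by omega)
  · -- 8 s <= 4^g
    have e1 : (4 : ℕ) ^ g = 2 ^ g * 2 ^ g := by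
      rw [← mul_pow]
      norm_num
    rw [e1]
    refine le_trans ?_ (Nat.mul_le_mul hpg hpg)
    calc 8 * n ^ (c + 2) ≤ n * n ^ (c + 2) := Nat.mul_le_mul_right _ hn8
      _ = n ^ (c + 3) := by rw [pow_succ n (c + 2), mul_comm]
      _ ≤ n ^ (c + 6 + (c + 6)) := Nat.pow_le_pow_right (by omega) (by omega)
      _ = n ^ (c + 6) * n ^ (c + 6) := pow_add _ _ _
  · -- counting
    have e1 : 2 * (4 * E * B * 2 ^ (4 * E * g * kk E)) + 1 ≤ 2 ^ n := by
      have e2 : 2 * n ^ (2 * a1 + 1) + 1 ≤ 4 * n ^ K := by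
        have e3 : n ^ (2 * a1 + 1) ≤ n ^ K := Nat.pow_le_pow_right (by omega) (by omega)
        have e4 : 1 ≤ n ^ K := Nat.one_le_pow _ _ (by omega)
        omega
      have e5 : 4 * n ^ K ≤ 2 ^ n := by
        have e6 : (2 : ℝ) + K * lg ≤ n := by linarith
        have e7 : 2 + K * lg ≤ n := by exact_mod_cast e6
        calc 4 * n ^ K ≤ 4 * (2 ^ lg) ^ K := Nat.mul_le_mul_left _ (Nat.pow_le_pow_left hlg1.le _)
          _ = 2 ^ (2 + K * lg) := by
              rw [← pow_mul, pow_add, mul_comm lg K]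
              norm_num
          _ ≤ 2 ^ n := Nat.pow_le_pow_right (by norm_num) e7
      omega
    have e8 : 4 * E * g * B ≤ n := by
      calc 4 * E * g * B = B * (4 * E * g) := by ring
        _ ≤ n := hBn
    have e9 : (4 * E + 1) * B ≤ n := by
      refine le_trans ?_ e8
      apply Nat.mul_le_mul_right
      have : 4 * E * 2 ≤ 4 * E * g := Nat.mul_le_mul_left _ hg2
      omega
    have e10 : (2 ^ (n ^ c) * (2 ^ n + 2 * (4 * E * B * 2 ^ (4 * E * g * kk E)) + 1) *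
        2 ^ (4 * E * g * B) + 1) * (2 ^ (4 * E + 1)) ^ B < 4 ^ (n ^ (c + 2)) := by
      have s1 : 2 ^ n + 2 * (4 * E * B * 2 ^ (4 * E * g * kk E)) + 1 ≤ 2 ^ (n + 1) := by
        rw [pow_succ]
        omega
      have s2 : 2 ^ (n ^ c) * (2 ^ n + 2 * (4 * E * B * 2 ^ (4 * E * g * kk E)) + 1) *
          2 ^ (4 * E * g * B) ≤ 2 ^ (n ^ c + (n + 1) + n) := by
        rw [pow_add, pow_add]
        exact Nat.mul_le_mul (Nat.mul_le_mul_left _ s1) (Nat.pow_le_pow_right (by norm_num) e8)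
      have s3 : (2 ^ (4 * E + 1)) ^ B ≤ 2 ^ n := by
        rw [← pow_mul]
        exact Nat.pow_le_pow_right (by norm_num) e9
      have s4 : 2 ^ (n ^ c) * (2 ^ n + 2 * (4 * E * B * 2 ^ (4 * E * g * kk E)) + 1) *
          2 ^ (4 * E * g * B) + 1 ≤ 2 ^ (n ^ c + (n + 1) + n + 1) := by
        rw [pow_succ 2 (n ^ c + (n + 1) + n)]
        have : 1 ≤ 2 ^ (n ^ c + (n + 1) + n) := Nat.one_le_two_pow
        omega
      calc _ ≤ 2 ^ (n ^ c + (n + 1) + n + 1) * 2 ^ n := Nat.mul_le_mul s4 s3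
        _ = 2 ^ (n ^ c + 3 * n + 2) := by
            rw [← pow_add]
            ring_nf
        _ < 2 ^ (2 * n ^ (c + 2)) := by
            apply Nat.pow_lt_pow_right (by norm_num)
            have t1 : n ^ (c + 2) = n ^ c * n ^ 2 := pow_add _ _ _
            have t2 : 64 ≤ n ^ 2 := by nlinarith
            have t3 : 1 ≤ n ^ c := Nat.one_le_pow _ _ (by omega)
            have t4 : n ^ c * 64 ≤ n ^ c * n ^ 2 := Nat.mul_le_mul_left _ t2
            have t5 : 1 * n ^ 2 ≤ n ^ c * n ^ 2 := Nat.mul_le_mul_right _ t3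
            have t6 : 3 * n + 2 ≤ n ^ 2 := by nlinarith
            rw [t1]
            omega
        _ = 4 ^ (n ^ (c + 2)) := by
            rw [pow_mul]
            norm_num
    exact_mod_cast e10
  · exact hbig.trans (Nat.pow_le_pow_right (by omega) (by omega))
  · -- width
    have e1 : 4 * E * g * kk E = a1 * lg := by
      rw [hg, ha1]
      ring
    rw [e1]
    push_cast
    have e2 : (lg : ℝ) ≤ 2 * Real.logb 2 n := by
      have e3 : (Nat.log 2 n : ℝ) ≤ Real.logb 2 n := by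
        have := Real.natLog_le_logb n 2
        simpa using this
      have e4 : (1 : ℝ) ≤ Real.logb 2 n := by
        rw [Real.le_logb_iff_rpow_le (by norm_num) (by positivity), Real.rpow_one]
        have : 2 ≤ n := by omega
        exact_mod_cast this
      rw [← hlgr]
      linarith
    have e5 : 0 ≤ Real.logb 2 n := by
      have : (0 : ℝ) ≤ lg := Nat.cast_nonneg _
      linarith
    calc (a1 : ℝ) * lg ≤ a1 * (2 * Real.logb 2 n) :=
          mul_le_mul_of_nonneg_left e2 (Nat.cast_nonneg _)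
      _ = (2 * a1) * Real.logb 2 n := by ring
      _ ≤ K * Real.logb 2 n := by
          apply mul_le_mul_of_nonneg_right _ e5
          rw [hK]
          push_cast
          linarith
  · -- last item
    intro m W hm1 hm hx
    have hgr : (g : ℝ) = (c + 6) * lg := by
      rw [hg]
      push_cast
      rfl
    have hlr : (lg : ℝ) ≤ g := by exact_mod_cast hlgg
    have hl3 : (2 : ℝ) * E * (4 * E + 1) + (⌈32 / ε⌉₊ : ℝ) ≤ lg := by exact_mod_cast hlg3
    refine last_item E K n g B m lg ε W hE16 hε hEε (by omega) hlg1.le hB ?_ ?_ ?_ ?_ hm hm1 hx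
    · have : (0 : ℝ) ≤ (⌈32 / ε⌉₊ : ℝ) := Nat.cast_nonneg _
      linarith
    · rw [hgr]
      have e1 : (n : ℝ) / (16 * (E : ℝ) ^ 2) = 1 / (16 * (E : ℝ) ^ 2) * n := by ring
      rw [e1]
      calc (5 : ℝ) + K * lg + (c + 6) * lg = 5 + (K + (c + 6)) * lg := by ring
        _ ≤ 1 / (16 * (E : ℝ) ^ 2) * n := q3
    · have e1 := Nat.le_ceil (32 / ε)
      have e2 : (0 : ℝ) ≤ (2 : ℝ) * E * (4 * E + 1) := by positivity
      linarith
    · exact q4

end Pool.Agent.H58.LP
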